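import Pool.Agent.W325.KZ.Defs

/-! Project KZ, part SPEC. -/

set_option autoImplicit false

open Finset MeasureTheory ProbabilityTheory Filter Topology

namespace Pool.Agent.W479.KZ

open Pool.Agent.W325.KZ

lemma sum_inv_sqrt (m : ℕ) : ∑ k ∈ range m, 1 / Real.sqrt ((k : ℝ) + 1) ≤ 2 * Real.sqrt m := by
  induction m with
  | zero => simp
  | succ m ih =>
    rw [sum_range_succ]
    have h1 : 0 < Real.sqrt ((m : ℝ) + 1) := Real.sqrt_pos.2 (by positivity)
    have h2 : 0 ≤ Real.sqrt (m : ℝ) := Real.sqrt_nonneg _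
    have h3 : Real.sqrt ((m : ℝ) + 1) ^ 2 = m + 1 := Real.sq_sqrt (by positivity)
    have h4 : Real.sqrt (m : ℝ) ^ 2 = m := Real.sq_sqrt (by positivity)
    have h5 : 1 / Real.sqrt ((m : ℝ) + 1) ≤ 2 * Real.sqrt ((m : ℝ) + 1) - 2 * Real.sqrt m := by
      rw [div_le_iff₀ h1]
      nlinarith [sq_nonneg (Real.sqrt ((m : ℝ) + 1) - Real.sqrt m)]
    push_cast
    linarith

lemma sum_inv (m : ℕ) : ∑ k ∈ range m, 1 / ((k : ℝ) + 1) ≤ 1 + Real.log m := by
  have h := harmonic_le_one_add_log m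
  have e : ((harmonic m : ℚ) : ℝ) = ∑ k ∈ range m, 1 / ((k : ℝ) + 1) := by
    unfold harmonic
    push_cast
    exact Finset.sum_congr rfl fun k _ => by rw [one_div]
  rwa [e] at h

/-- the alternating values -/
lemma alt (h : ℕ → ℝ) (Ch Cb : ℝ) (hCh : 0 < Ch) (hCb : 0 < Cb)
    (hh : ∀ k : ℕ, |h k| ≤ Ch / Real.sqrt ((k : ℝ) + 1))
    (hs : ∀ y : ℝ, 0 ≤ y → y < 1 →
      HasSum (fun k => h k * y ^ k) (Real.cos (6 * Real.log (1 - y)) / Real.sqrt (1 - y)))
    (m J : ℕ) (hm : 2 * (Cb + 2) * Ch ≤ Real.sqrt m) (hm0 : 0 < m)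
    (hJ : Real.exp (Real.pi / 6 * J) ≤ Real.sqrt m) (j : ℕ) (hj1 : 1 ≤ j) (hj : j ≤ J)
    (z : ℕ → ℝ) (hz : ∀ y : ℝ, 0 ≤ y → y < 1 → |pol z m y| ≤ Cb / Real.sqrt (1 - y)) :
    1 ≤ (-1) ^ j * pol (fun k => (Cb + 2) * h k + z k) m (yy j) := by
  obtain ⟨y, hy⟩ : ∃ y, y = yy j := ⟨_, rfl⟩
  obtain ⟨t, ht⟩ : ∃ t, t = Real.exp (-(Real.pi / 6 * j)) := ⟨_, rfl⟩
  have hyt : y = 1 - t := by rw [hy, ht]; rfl
  have htp : 0 < t := by rw [ht]; exact Real.exp_pos _
  have hpi := Real.pi_pos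
  have hj1' : (1 : ℝ) ≤ j := by exact_mod_cast hj1
  have hj' : (j : ℝ) ≤ J := by exact_mod_cast hj
  have ht1 : t < 1 := by
    rw [ht, Real.exp_lt_one_iff]
    have : 0 < Real.pi / 6 * j := by positivity
    linarith
  have hy0 : 0 ≤ y := by rw [hyt]; linarith
  have hy1 : y < 1 := by rw [hyt]; linarith
  have h1y : 1 - y = t := by rw [hyt]; ring
  have hsq0 : 0 < Real.sqrt (m : ℝ) := Real.sqrt_pos.2 (by exact_mod_cast hm0)
  -- lower bound for t
  have htm : 1 / t ≤ Real.sqrt m := by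
    have e1 : 1 / t = Real.exp (Real.pi / 6 * j) := by
      rw [ht, Real.exp_neg, one_div, inv_inv]
    rw [e1]
    refine le_trans (Real.exp_le_exp.2 ?_) hJ
    exact mul_le_mul_of_nonneg_left hj' (by positivity)
  have htm2 : Real.sqrt m ≤ t * m := by
    have h1 : 1 ≤ Real.sqrt m * t := by
      rw [div_le_iff₀ htp] at htm
      exact htm
    have h2 : (m : ℝ) = Real.sqrt m * Real.sqrt m := (Real.mul_self_sqrt (by positivity)).symm
    calc Real.sqrt m = 1 * Real.sqrt m := (one_mul _).symm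
      _ ≤ (Real.sqrt m * t) * Real.sqrt m := mul_le_mul_of_nonneg_right h1 hsq0.le
      _ = t * (Real.sqrt m * Real.sqrt m) := by ring
      _ = t * m := by rw [← h2]
  -- the series
  have hS := hs y hy0 hy1
  rw [h1y] at hS
  have hlog : Real.log t = -(Real.pi / 6 * j) := by rw [ht, Real.log_exp]
  have hcos : Real.cos (6 * Real.log t) = (-1) ^ j := by
    rw [hlog]
    have : 6 * -(Real.pi / 6 * (j : ℝ)) = -((j : ℝ) * Real.pi) := by ring
    rw [this, Real.cos_neg, Real.cos_nat_mul_pi]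
  rw [hcos] at hS
  have hsum := hS.summable
  have hsplit := hsum.sum_add_tsum_nat_add m
  rw [hS.tsum_eq] at hsplit
  obtain ⟨R, hR⟩ : ∃ R, R = ∑' i : ℕ, h (i + m) * y ^ (i + m) := ⟨_, rfl⟩
  rw [← hR] at hsplit
  have hpolh : pol h m y = (-1) ^ j / Real.sqrt t - R := by
    unfold pol
    linarith
  -- bound for the tail
  have hgeo : HasSum (fun i : ℕ => Ch * y ^ (i + m)) (Ch * (y ^ m / t)) := by
    have h1 := hasSum_geometric_of_lt_one hy0 hy1
    have h2 := h1.mul_left (Ch * y ^ m)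
    rw [h1y] at h2
    have e2 : Ch * (y ^ m / t) = Ch * y ^ m * t⁻¹ := by rw [div_eq_mul_inv]; ring
    rw [e2]
    refine h2.congr_fun ?_ |> id
    intro i
    rw [pow_add]
    ring
  have hterm : ∀ i : ℕ, ‖h (i + m) * y ^ (i + m)‖ ≤ Ch * y ^ (i + m) := by
    intro i
    rw [Real.norm_eq_abs, abs_mul, abs_of_nonneg (pow_nonneg hy0 _)]
    refine mul_le_mul_of_nonneg_right ?_ (pow_nonneg hy0 _)
    refine (hh _).trans ?_
    refine div_le_self hCh.le ?_
    rw [Real.one_le_sqrt]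
    have : (0 : ℝ) ≤ ((i + m : ℕ) : ℝ) := by positivity
    linarith
  have hRb : |R| ≤ Ch * (y ^ m / t) := by
    rw [hR, ← Real.norm_eq_abs]
    exact tsum_of_norm_bounded hgeo hterm
  have hym : y ^ m ≤ Real.exp (-Real.sqrt m) := by
    have h1 : y ≤ Real.exp (-t) := by
      have := Real.add_one_le_exp (-t)
      rw [hyt]; linarith
    calc y ^ m ≤ Real.exp (-t) ^ m := pow_le_pow_left₀ hy0 h1 m
      _ = Real.exp (-(t * m)) := by rw [← Real.exp_nat_mul]; ring_nf
      _ ≤ Real.exp (-Real.sqrt m) := Real.exp_le_exp.2 (by linarith)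
  have hexp : Real.sqrt m * Real.exp (-Real.sqrt m) ≤ 2 / Real.sqrt m := by
    have h1 := Real.quadratic_le_exp_of_nonneg hsq0.le
    rw [Real.exp_neg, ← div_eq_mul_inv, div_le_div_iff₀ (Real.exp_pos _) hsq0]
    nlinarith
  have hA : 0 < Cb + 2 := by linarith
  have hRA : (Cb + 2) * |R| ≤ 1 := by
    have h1 : y ^ m / t ≤ 2 / Real.sqrt m := by
      calc y ^ m / t = (1 / t) * y ^ m := by ring
        _ ≤ Real.sqrt m * Real.exp (-Real.sqrt m) :=
          mul_le_mul htm hym (pow_nonneg hy0 _) hsq0.le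
        _ ≤ _ := hexp
    calc (Cb + 2) * |R| ≤ (Cb + 2) * (Ch * (2 / Real.sqrt m)) := by
          refine mul_le_mul_of_nonneg_left (hRb.trans ?_) hA.le
          exact mul_le_mul_of_nonneg_left h1 hCh.le
      _ = (2 * (Cb + 2) * Ch) / Real.sqrt m := by ring
      _ ≤ 1 := by rw [div_le_one hsq0]; exact hm
  -- conclusion
  have hst : 0 < Real.sqrt t := Real.sqrt_pos.2 htp
  have hst1 : Real.sqrt t ≤ 1 := by
    rw [Real.sqrt_le_one]
    exact ht1.le
  have h1st : 1 ≤ 1 / Real.sqrt t := by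
    rw [le_div_iff₀ hst]; linarith
  have hzy := hz y hy0 hy1
  rw [h1y] at hzy
  have hpolb : pol (fun k => (Cb + 2) * h k + z k) m y = (Cb + 2) * pol h m y + pol z m y := by
    unfold pol
    rw [Finset.mul_sum, ← Finset.sum_add_distrib]
    exact Finset.sum_congr rfl fun k _ => by ring
  rw [← hy, hpolb, hpolh]
  have hsg : ((-1 : ℝ) ^ j) * (-1) ^ j = 1 := by rw [← mul_pow]; norm_num
  have hsa : |((-1 : ℝ) ^ j)| = 1 := by rw [abs_pow]; norm_num
  have e3 : (-1 : ℝ) ^ j * ((Cb + 2) * ((-1) ^ j / Real.sqrt t - R) + pol z m y) =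
      (Cb + 2) * (1 / Real.sqrt t) - (-1) ^ j * ((Cb + 2) * R) + (-1) ^ j * pol z m y := by
    have : (-1 : ℝ) ^ j * ((Cb + 2) * ((-1) ^ j / Real.sqrt t - R) + pol z m y) =
      (Cb + 2) * (((-1 : ℝ) ^ j * (-1) ^ j) / Real.sqrt t) - (-1) ^ j * ((Cb + 2) * R) +
        (-1) ^ j * pol z m y := by ring
    rw [this, hsg]
  rw [e3]
  have b1 : (-1 : ℝ) ^ j * ((Cb + 2) * R) ≤ 1 := by
    refine (le_abs_self _).trans ?_
    rw [abs_mul, hsa, one_mul, abs_mul, abs_of_pos hA]
    exact hRA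
  have b2 : -(Cb / Real.sqrt t) ≤ (-1 : ℝ) ^ j * pol z m y := by
    have : |(-1 : ℝ) ^ j * pol z m y| ≤ Cb / Real.sqrt t := by
      rw [abs_mul, hsa, one_mul]; exact hzy
    exact (abs_le.1 this).1
  have e4 : (Cb + 2) * (1 / Real.sqrt t) = Cb / Real.sqrt t + 2 * (1 / Real.sqrt t) := by ring
  rw [e4]
  linarith

theorem spec (hB : S_BIN) (hC : S_CM) (hK : S_BLK) : S_SPEC := by
  obtain ⟨h, Ch, hCh, hh, hs⟩ := hB
  obtain ⟨Cb, hCb, hblk⟩ := hK
  obtain ⟨A, hA⟩ : ∃ A, A = Cb + 2 := ⟨_, rfl⟩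
  have hA0 : 0 < A := by rw [hA]; linarith
  obtain ⟨B, hBd⟩ : ∃ B, B = A ^ 2 * Ch ^ 2 / 2 := ⟨_, rfl⟩
  have hB0 : 0 ≤ B := by rw [hBd]; positivity
  obtain ⟨C, hCd⟩ : ∃ C, C = 2 * A * Ch + Cb + 3 * B + 2 := ⟨_, rfl⟩
  have hACh : 0 < A * Ch := mul_pos hA0 hCh
  have hC0 : 0 < C := by rw [hCd]; nlinarith
  obtain ⟨M₁, hM₁⟩ := exists_nat_ge ((2 * A * Ch) ^ 2)
  refine ⟨C, M₁ + 1, hC0, fun M J hM hJ1 hJ => ?_⟩
  obtain ⟨S, hSm, hSd, hSs, hSp, hSb⟩ := hblk M
  obtain ⟨m, hm⟩ : ∃ m : ℕ, m = 2 ^ M := ⟨_, rfl⟩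
  rw [← hm] at hSd hSb hJ ⊢
  have hmM : M < m := by rw [hm]; exact Nat.lt_two_pow_self
  have hm0 : 0 < m := by omega
  have hm1 : (1 : ℝ) ≤ m := by exact_mod_cast hm0
  have hsm : 2 * A * Ch ≤ Real.sqrt m := by
    refine Real.le_sqrt_of_sq_le ?_
    refine hM₁.trans ?_
    exact_mod_cast (by omega : M₁ ≤ m)
  refine ⟨{b | (fun k => b k - A * h k) ∈ S}, ?_, ?_, ?_, ?_⟩
  · have hmeas : Measurable (fun b : ℕ → ℝ => fun k => b k - A * h k) :=
      measurable_pi_lambda _ fun k => (measurable_pi_apply k).sub_const _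
    exact hmeas hSm
  · intro x y hxy
    exact hSd (x := fun k => x k - A * h k) (y := fun k => y k - A * h k) (fun i hi => by
      show x i - A * h i = y i - A * h i
      rw [hxy i hi])
  · -- probability
    have h1 := hC m S (fun k => A * h k) hSm hSd hSs
    refine le_trans ?_ h1
    have hlogm : Real.log m = M * Real.log 2 := by
      rw [hm]; push_cast; rw [Real.log_pow]
    have hsumsq : ∑ k ∈ range m, (A * h k) ^ 2 ≤ A ^ 2 * Ch ^ 2 * (1 + Real.log m) := by
      calc ∑ k ∈ range m, (A * h k) ^ 2 ≤ ∑ k ∈ range m, A ^ 2 * Ch ^ 2 * (1 / ((k : ℝ) + 1)) := by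
            refine Finset.sum_le_sum fun k _ => ?_
            have h2 := hh k
            have h3 : h k ^ 2 ≤ (Ch / Real.sqrt ((k : ℝ) + 1)) ^ 2 := by
              rw [← sq_abs (h k)]
              exact pow_le_pow_left₀ (abs_nonneg _) h2 2
            rw [div_pow, Real.sq_sqrt (by positivity)] at h3
            calc (A * h k) ^ 2 = A ^ 2 * h k ^ 2 := by ring
              _ ≤ A ^ 2 * (Ch ^ 2 / ((k : ℝ) + 1)) := mul_le_mul_of_nonneg_left h3 (by positivity)
              _ = _ := by ring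
        _ = A ^ 2 * Ch ^ 2 * ∑ k ∈ range m, 1 / ((k : ℝ) + 1) := by rw [Finset.mul_sum]
        _ ≤ _ := mul_le_mul_of_nonneg_left (sum_inv m) (by positivity)
    have hl2 : 1 / 2 ≤ Real.log 2 := by linarith [Real.log_two_gt_d9]
    have hM1 : (1 : ℝ) ≤ M := by exact_mod_cast (by omega : 1 ≤ M)
    have hreal : ((m : ℕ) : ℝ) ^ (-C) ≤
        Real.exp (-(∑ k ∈ range m, (A * h k) ^ 2) / 2) * (1 / 2) ^ (M + 1) := by
      have e1 : ((1 : ℝ) / 2) ^ (M + 1) = Real.exp (-((M + 1) * Real.log 2)) := by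
        have : ((1 : ℝ) / 2) = Real.exp (-Real.log 2) := by
          rw [Real.exp_neg, Real.exp_log (by norm_num)]; norm_num
        rw [this, ← Real.exp_nat_mul]
        congr 1
        push_cast
        ring
      rw [e1, ← Real.exp_add, Real.rpow_def_of_pos (by linarith : (0 : ℝ) < m)]
      refine Real.exp_le_exp.2 ?_
      have e2 : -B * (1 + M * Real.log 2) ≤ -(∑ k ∈ range m, (A * h k) ^ 2) / 2 := by
        rw [hlogm] at hsumsq
        have : B * (1 + M * Real.log 2) = A ^ 2 * Ch ^ 2 * (1 + M * Real.log 2) / 2 := by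
          rw [hBd]; ring
        linarith
      rw [hlogm]
      have e3 : 1 ≤ 2 * (M * Real.log 2) := by nlinarith
      have e4 : B ≤ B * (2 * (M * Real.log 2)) := le_mul_of_one_le_right hB0 e3
      have e5 : Real.log 2 ≤ M * Real.log 2 := le_mul_of_one_le_left (by linarith) hM1
      have e6 : C * (M * Real.log 2) = (2 * A * Ch + Cb) * (M * Real.log 2) +
        3 * (B * (M * Real.log 2)) + 2 * (M * Real.log 2) := by rw [hCd]; ring
      have e7 : 0 ≤ (2 * A * Ch + Cb) * (M * Real.log 2) := by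
        have : 0 ≤ 2 * A * Ch := by nlinarith
        positivity
      have e8 : M * Real.log 2 * -C = -(C * (M * Real.log 2)) := by ring
      rw [e8, e6]
      have e9 : -B * (1 + M * Real.log 2) = -B - B * (M * Real.log 2) := by ring
      rw [e9] at e2
      linarith
    calc ENNReal.ofReal (((m : ℕ) : ℝ) ^ (-C)) ≤ ENNReal.ofReal
          (Real.exp (-(∑ k ∈ range m, (A * h k) ^ 2) / 2) * (1 / 2) ^ (M + 1)) :=
          ENNReal.ofReal_le_ofReal hreal
      _ = ENNReal.ofReal (Real.exp (-(∑ k ∈ range m, (A * h k) ^ 2) / 2)) *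
          ENNReal.ofReal ((1 / 2) ^ (M + 1)) := ENNReal.ofReal_mul (Real.exp_pos _).le
      _ ≤ _ := by
          refine mul_le_mul_right ?_ _
          refine le_trans (le_of_eq ?_) hSp
          rw [ENNReal.ofReal_pow (by norm_num)]
          congr 1
          rw [one_div, ENNReal.ofReal_inv_of_pos (by norm_num)]
          norm_num
  · -- the properties
    intro b hb
    obtain ⟨z, hzd⟩ : ∃ z : ℕ → ℝ, z = fun k => b k - A * h k := ⟨_, rfl⟩
    have hz : z ∈ S := by rw [hzd]; exact hb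
    have hbz : b = fun k => A * h k + z k := by
      funext k; rw [hzd]; ring
    obtain ⟨z1, z2, z3⟩ := hSb z hz
    refine ⟨?_, ?_, ?_⟩
    · intro j hj1 hj
      rw [hbz, hA]
      refine alt h Ch Cb hCh hCb hh hs m J ?_ hm0 hJ j hj1 hj z z1
      rw [← hA]; exact hsm
    · intro y hy
      have e1 : pol b m y = A * pol h m y + pol z m y := by
        rw [hbz]
        unfold pol
        rw [Finset.mul_sum, ← Finset.sum_add_distrib]
        exact Finset.sum_congr rfl fun k _ => by ring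
      have e2 : |pol h m y| ≤ Ch * (2 * Real.sqrt m) := by
        unfold pol
        calc |∑ k ∈ range m, h k * y ^ k| ≤ ∑ k ∈ range m, |h k * y ^ k| :=
              Finset.abs_sum_le_sum_abs _ _
          _ ≤ ∑ k ∈ range m, Ch * (1 / Real.sqrt ((k : ℝ) + 1)) := by
              refine Finset.sum_le_sum fun k _ => ?_
              rw [abs_mul, abs_pow]
              calc |h k| * |y| ^ k ≤ |h k| * 1 :=
                    mul_le_mul_of_nonneg_left (pow_le_one₀ (abs_nonneg _) hy) (abs_nonneg _)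
                _ ≤ Ch / Real.sqrt ((k : ℝ) + 1) := by rw [mul_one]; exact hh k
                _ = _ := by ring
          _ = Ch * ∑ k ∈ range m, 1 / Real.sqrt ((k : ℝ) + 1) := by rw [Finset.mul_sum]
          _ ≤ _ := mul_le_mul_of_nonneg_left (sum_inv_sqrt m) hCh.le
      rw [e1]
      have e3 : |A * pol h m y + pol z m y| ≤ A * (Ch * (2 * Real.sqrt m)) + Cb * Real.sqrt m := by
        refine (abs_add_le _ _).trans (add_le_add ?_ ?_)
        · rw [abs_mul, abs_of_pos hA0]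
          exact mul_le_mul_of_nonneg_left e2 hA0.le
        · exact z2 y hy
      refine e3.trans ?_
      have e4 : A * (Ch * (2 * Real.sqrt m)) + Cb * Real.sqrt m = (2 * A * Ch + Cb) *
        Real.sqrt m := by ring
      rw [e4]
      refine mul_le_mul_of_nonneg_right ?_ (Real.sqrt_nonneg _)
      rw [hCd]; linarith
    · intro k hk
      have e1 : b k = A * h k + z k := by rw [hbz]
      have e2 : |h k| ≤ Ch := by
        refine (hh k).trans (div_le_self hCh.le ?_)
        rw [Real.one_le_sqrt]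
        have : (0 : ℝ) ≤ (k : ℝ) := by positivity
        linarith
      rw [e1]
      have e3 : |A * h k + z k| ≤ A * Ch + Cb * m := by
        refine (abs_add_le _ _).trans (add_le_add ?_ (z3 k hk))
        rw [abs_mul, abs_of_pos hA0]
        exact mul_le_mul_of_nonneg_left e2 hA0.le
      refine e3.trans ?_
      have e4 : A * Ch ≤ A * Ch * m := le_mul_of_one_le_right hACh.le hm1
      have e5 : 0 ≤ (A * Ch + 3 * B + 2) * m := by positivity
      have e6 : C * m = A * Ch * m + Cb * m + (A * Ch + 3 * B + 2) * m := by rw [hCd]; ring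
      rw [e6]
      linarith

end Pool.Agent.W479.KZ
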